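import Pool.Agent.Helper12.QD.XDef

/-!
# All sets are coded by models of `χ`, when sets of linear size are
-/

set_option autoImplicit false

namespace Pool.Agent.Helper6.QD

open FirstOrder FirstOrder.Language Pool.Agent.Helper20.Spectra Pool.Agent.Helper14.SS
  Pool.Agent.Helper58.QD Pool.Agent.Helper12.QD

variable {S : Type} {ar : S → ℕ} {χ : (RelLang S ar).Sentence}

/-- kinds of the codes: `2 * q` decoded sets and `q` points which are used or not -/
abbrev CdL (S : Type) (ar : S → ℕ) (q : ℕ) :=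
  (Fin (2 * q) → (Bool → Kd S ar)) × (Fin q → Bool)

/-- element parameters -/
abbrev EL (S : Type) (ar : S → ℕ) (q : ℕ) := (Fin (2 * q) × (Bool × Pe S ar)) ⊕ Fin q

/-- models -/
abbrev RhL (q : ℕ) := Fin (2 * q) × (Bool × Bool)

/-- the coded set: a union of decoded sets and of points -/
def dcL {q : ℕ} (c : CdL S ar q) (n : ℕ) (p : EL S ar q → Fin n)
    (V : RhL q → Interp S ar (Fin n)) (x : Fin n) : Prop :=
  (∃ i : Fin (2 * q), ZS (c.1 i) (fun e => p (Sum.inl (i, e))) (fun e => V (i, e)) x) ∨
    ∃ j : Fin q, c.2 j = true ∧ x = p (Sum.inr j)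

lemma q_dcL {q : ℕ} (c : CdL S ar q) : Qdf χ (EL S ar q ⊕ Unit) (RhL q)
    (fun n v V => dcL c n (v ∘ Sum.inl) V (v (Sum.inr ()))) := by
  unfold dcL
  refine Qdf.or (Qdf.exFin (fun i => ?_)) (Qdf.exFin (fun j => Qdf.and (Qdf.const _) ?_))
  · exact q_ZS (c.1 i) (fun e => Sum.inl (Sum.inl (i, e))) (fun e => (i, e)) (Sum.inr ())
  · exact q_eq (Sum.inr ()) (Sum.inl (Sum.inr j))

/-- the codes -/
def KL [Finite S] (χ : (RelLang S ar).Sentence) (q : ℕ) : Codes χ where
  Cd := CdL S ar q
  E := EL S ar q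
  Rh := RhL q
  finCd := inferInstance
  finE := inferInstance
  finRh := inferInstance
  dc := dcL
  gd := fun _ _ _ _ => True
  hdc := q_dcL
  hgd := fun _ => Qdf.const True

/-- the piece `i` of a set -/
def pc {n : ℕ} (X : Finset (Fin n)) (m i : ℕ) : Finset (Fin n) :=
  X.filter (fun x => i * m ≤ (x : ℕ) ∧ (x : ℕ) < i * m + m)

lemma pc_card {n : ℕ} (X : Finset (Fin n)) (m i : ℕ) : (pc X m i).card ≤ m := by
  have h1 : (pc X m i).card ≤ (Finset.Ico (i * m) (i * m + m)).card := by
    apply Finset.card_le_card_of_injOn (fun x : Fin n => (x : ℕ))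
    · intro x hx
      have hx' : x ∈ pc X m i := hx
      unfold pc at hx'
      rw [Finset.mem_filter] at hx'
      exact Finset.mem_coe.2 (Finset.mem_Ico.2 hx'.2)
    · intro x _ y _ hxy
      exact Fin.ext hxy
  rw [Nat.card_Ico] at h1
  omega

lemma good_KL [Finite S] {q n : ℕ} (hq : 1 ≤ q)
    (hI : ∀ X : Finset (Fin n), q * X.card ≤ n → Dec χ X) : (KL χ q).Good n n := by
  classical
  intro X
  refine ⟨fun _ => ?_, fun _ => (Finset.card_le_univ X).trans (Fintype.card_fin n).le⟩
  rcases Nat.eq_zero_or_pos n with hn | hn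
  · -- no element
    subst hn
    obtain ⟨c1, p1, V1, hV1, h1⟩ := (dec_iff _).1 (hI X (by
      have : X.card = 0 := by
        rw [Finset.card_eq_zero, Finset.eq_empty_iff_forall_notMem]
        intro x; exact x.elim0
      rw [this]; simp))
    refine ⟨(fun _ => c1, fun _ => false), Sum.elim (fun e => p1 e.2) (fun _ => p1 (true, Sum.inl ())),
      fun e => V1 e.2, ?_, trivial, fun x => x.elim0⟩
    rintro ⟨j, e⟩
    exact hV1 e
  · have hpc : ∀ i : Fin (2 * q), Dec χ (pc X (n / q) i) := by
      intro i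
      apply hI
      exact (Nat.mul_le_mul_left q (pc_card X (n / q) i)).trans (Nat.mul_div_le n q)
    have hpc' := fun i => (dec_iff _).1 (hpc i)
    choose c p V hV h using hpc'
    let pt : Fin q → Fin n := fun j => if hj : (j : ℕ) < n then ⟨j, hj⟩ else ⟨0, hn⟩
    refine ⟨(c, fun j => decide (n < q ∧ (j : ℕ) < n ∧ pt j ∈ X)),
      Sum.elim (fun e => p e.1 e.2) pt, fun e => V e.1 e.2, ?_, trivial, ?_⟩
    · rintro ⟨j, e⟩
      exact hV j e
    · intro x
      show x ∈ X ↔ (∃ i : Fin (2 * q), ZS (c i) (p i) (V i) x) ∨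
        ∃ j : Fin q, decide (n < q ∧ (j : ℕ) < n ∧ pt j ∈ X) = true ∧ x = pt j
      constructor
      · intro hx
        rcases Nat.lt_or_ge n q with hnq | hnq
        · right
          have hxq : (x : ℕ) < q := x.is_lt.trans hnq
          have e1 : pt ⟨x, hxq⟩ = x := by
            show (if hj : (x : ℕ) < n then (⟨x, hj⟩ : Fin n) else ⟨0, hn⟩) = x
            rw [dif_pos x.is_lt]
          refine ⟨⟨x, hxq⟩, ?_, e1.symm⟩
          rw [e1]
          exact decide_eq_true ⟨hnq, x.is_lt, hx⟩
        · left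
          have hm : 1 ≤ n / q := (Nat.one_le_div_iff (by omega)).2 hnq
          have h2 : (x : ℕ) / (n / q) < 2 * q := by
            rw [Nat.div_lt_iff_lt_mul (by omega)]
            have h3 : n < q * (n / q) + q := by
              have := Nat.lt_mul_div_succ n (show 0 < q by omega)
              rw [Nat.mul_add] at this
              omega
            have h4 : q * 1 ≤ q * (n / q) := Nat.mul_le_mul_left q hm
            have h5 : 2 * q * (n / q) = q * (n / q) + q * (n / q) := by ring
            have := x.is_lt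
            omega
          refine ⟨⟨(x : ℕ) / (n / q), h2⟩, (h _ x).1 ?_⟩
          unfold pc
          rw [Finset.mem_filter]
          refine ⟨hx, ?_, ?_⟩
          · exact Nat.div_mul_le_self _ _
          · have := Nat.lt_div_mul_add (a := (x : ℕ)) (show 0 < n / q by omega)
            exact this
      · rintro (⟨i, hi⟩ | ⟨j, hj, hx⟩)
        · have := (h i x).2 hi
          unfold pc at this
          exact (Finset.mem_filter.1 this).1
        · rw [hx]
          exact (of_decide_eq_true hj).2.2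

/-- all sets are coded -/
theorem codesL [Finite S] (χ : (RelLang S ar).Sentence) {q : ℕ} (hq : 1 ≤ q) :
    ∃ K : Codes χ, ∀ n, (∀ X : Finset (Fin n), q * X.card ≤ n → Dec χ X) → K.Good n n :=
  ⟨KL χ q, fun _ hI => good_KL hq hI⟩

end Pool.Agent.Helper6.QD
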