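import Pool.Agent.Helper20.Sparse.Pow

/-!
# If all spectra are rudimentary: the census of a rudimentary set
-/

set_option autoImplicit false

namespace Pool.Agent.Helper6.QD

open Pool.Agent.Helper20.Spectra

lemma qc {k : ℕ} (c : ℕ) : Pool.Agent.Helper20.Spectra.IsPoly k (fun _ => c) :=
  Pool.Agent.Helper20.Spectra.IsPoly.const c

open Classical in
/-- the number of elements of `T` below `n` -/
noncomputable def cen (T : Set ℕ) (n : ℕ) : ℕ := ((Finset.range n).filter (· ∈ T)).card

lemma cen_zero (T : Set ℕ) : cen T 0 = 0 := by simp [cen]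

lemma cen_succ_mem {T : Set ℕ} {n : ℕ} (h : n ∈ T) : cen T (n + 1) = cen T n + 1 := by
  classical
  unfold cen
  rw [Finset.range_add_one, Finset.filter_insert, if_pos h, Finset.card_insert_of_notMem (by simp)]

lemma cen_succ_not {T : Set ℕ} {n : ℕ} (h : n ∉ T) : cen T (n + 1) = cen T n := by
  classical
  unfold cen
  rw [Finset.range_add_one, Finset.filter_insert, if_neg h]

lemma cen_le (T : Set ℕ) (n : ℕ) : cen T n ≤ n := by
  classical
  unfold cen
  exact (Finset.card_filter_le _ _).trans (by simp)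

/-- every value of the census is taken at an element of an infinite set -/
lemma exists_cen {T : Set ℕ} (hT : T.Infinite) (c : ℕ) : ∃ n ∈ T, cen T n = c := by
  classical
  have hex : ∀ c, ∃ n, c < cen T n := by
    intro c
    induction c with
    | zero =>
      obtain ⟨n, hn⟩ := hT.nonempty
      exact ⟨n + 1, by rw [cen_succ_mem hn]; omega⟩
    | succ c ih =>
      obtain ⟨n, hn⟩ := ih
      obtain ⟨m, hm, hnm⟩ := hT.exists_gt n
      refine ⟨m + 1, ?_⟩
      rw [cen_succ_mem hm]
      have : cen T n ≤ cen T m := by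
        unfold cen
        apply Finset.card_le_card
        apply Finset.filter_subset_filter
        intro x hx
        rw [Finset.mem_range] at hx ⊢
        omega
      omega
  obtain ⟨n, hn, hmin⟩ : ∃ n, c < cen T n ∧ ∀ m < n, ¬ c < cen T m :=
    ⟨Nat.find (hex c), Nat.find_spec (hex c), fun m hm => Nat.find_min (hex c) hm⟩
  cases n with
  | zero => rw [cen_zero] at hn; omega
  | succ n =>
    have h1 := hmin n (by omega)
    by_cases hnT : n ∈ T
    · rw [cen_succ_mem hnT] at hn
      exact ⟨n, hnT, by omega⟩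
    · rw [cen_succ_not hnT] at hn
      omega

/-- the recursion for the census -/
def CRec (T : Set ℕ) (W : SOA (fun _ : Unit => 2)) (n c : ℕ) : Prop :=
  W () ![0, 0] ∧
  (∀ i, i ≤ n → (i < n → ∀ x, x ≤ n → (W () ![i, x] →
    ((i ∈ T → W () ![i + 1, x + 1]) ∧ (¬ i ∈ T → W () ![i + 1, x]))))) ∧
  ∀ x, x ≤ n → (W () ![n, x] → x = c)

lemma exists_cRec {T : Set ℕ} {n c : ℕ} : (∃ W, CRec T W n c) ↔ cen T n = c := by
  constructor
  · rintro ⟨W, h0, h1, h2⟩
    have key : ∀ i, i ≤ n → W () ![i, cen T i] := by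
      intro i
      induction i with
      | zero => intro _; rw [cen_zero]; exact h0
      | succ i ih =>
        intro hi
        have h3 := h1 i (by omega) (by omega) (cen T i) ((cen_le T i).trans (by omega))
          (ih (by omega))
        by_cases hiT : i ∈ T
        · rw [cen_succ_mem hiT]; exact h3.1 hiT
        · rw [cen_succ_not hiT]; exact h3.2 hiT
    exact h2 _ (cen_le T n) (key n le_rfl)
  · rintro rfl
    refine ⟨fun _ w => w 1 = cen T (w 0), ?_, ?_, ?_⟩
    · show (0 : ℕ) = cen T 0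
      rw [cen_zero]
    · intro i _ _ x _ hx
      have hx' : x = cen T i := hx
      constructor
      · intro hiT
        show x + 1 = cen T (i + 1)
        rw [cen_succ_mem hiT, hx']
      · intro hiT
        show x = cen T (i + 1)
        rw [cen_succ_not hiT, hx']
    · intro x _ hx
      exact hx

lemma rud_cen (hQ : SRud) {T : Set ℕ} (hT : IsRudimentary T) :
    Rud 2 {v | cen T (v 0) = v 1} := by
  have h1 : ESO none0 2 (fun _ v => ∃ W : SOA (fun _ : Unit => 2), CRec T W (v 0) (v 1)) := by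
    have h2 : ESO (Sum.elim none0 (fun _ : Unit => 2)) 2 (fun Y v =>
        CRec T (fun i => Y (Sum.inr i)) (v 0) (v 1)) := by
      refine ESO.of (RudX.and' ?_ (RudX.and' ?_ ?_))
      · exact so2_inr (qc 0) (qc 0)
      · refine RudX.all (IsPoly.var 0) (RudX.imp (RudX.lt (IsPoly.var 0) (IsPoly.var 1))
          (RudX.all (IsPoly.var 1) (RudX.imp (so2_inr (IsPoly.var 1) (IsPoly.var 0))
            (RudX.and' (RudX.imp (RudX.mem hT (IsPoly.var 1)) ?_)
              (RudX.imp (RudX.not' (RudX.mem hT (IsPoly.var 1))) ?_)))))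
        · exact so2_inr ((IsPoly.var 1).add (qc 1)) ((IsPoly.var 0).add (qc 1))
        · exact so2_inr ((IsPoly.var 1).add (qc 1)) (IsPoly.var 0)
      · exact RudX.all (IsPoly.var 0) (RudX.imp (so2_inr (IsPoly.var 1) (IsPoly.var 0))
          (RudX.eq (IsPoly.var 0) (IsPoly.var 2)))
    exact h2.exSO
  refine (rud_of_eso hQ h1).congr ?_
  ext v
  exact exists_cRec

/-- the requirement `(k, t)` belongs to `n` -/
def Req (T : Set ℕ) (n k t : ℕ) : Prop :=
  ∃ B, B ≤ n ∧ (cen T n = B * B + ((k + t) ^ 2 + k) ∧ (k + t) ^ 2 + k < 2 * B + 1)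

lemma rud_req (hQ : SRud) {T : Set ℕ} (hT : IsRudimentary T) :
    Rud 3 {v | Req T (v 0) (v 1) (v 2)} := by
  have hr : Pool.Agent.Helper20.Spectra.IsPoly 4 (fun v => (v 2 + v 3) ^ 2 + v 2) :=
    (((IsPoly.var 2).add (IsPoly.var 3)).pow 2).add (IsPoly.var 2)
  have h1 : RudX none0 3 (fun _ v => Req T (v 0) (v 1) (v 2)) := by
    refine RudX.ex (IsPoly.var 0) (RudX.and' ?_ ?_)
    · have h2 : RudX none0 2 (fun _ v => v ∈ {v : Fin 2 → ℕ | cen T (v 0) = v 1}) :=
        RudX.ofRud (rud_cen hQ hT)
      refine (h2.subst 4 ![fun v => v 1, fun v => v 0 * v 0 + ((v 2 + v 3) ^ 2 + v 2)] ?_).congr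
        (fun X v => ?_)
      · intro i
        fin_cases i
        · exact IsPoly.var 1
        · exact ((IsPoly.var 0).mul (IsPoly.var 0)).add hr
      · exact Iff.rfl
    · exact RudX.lt hr (((qc 2).mul (IsPoly.var 0)).add (qc 1))
  exact h1.toRud

end Pool.Agent.Helper6.QD
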