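import Pool.Agent.Helper58.QD.Stub
import Pool.Agent.Helper6.QG.Core

/-!
Block A of the quantifier gap: the core.
-/

namespace Pool.Agent.Helper6.QD

theorem stmtCore : Pool.Agent.Helper58.QD.StmtCore := by
  intro k
  obtain ⟨c, hc⟩ := Pool.Agent.Helper6.QG.core k
  exact ⟨c, fun s hs M _ _ R => hc s hs M R⟩

end Pool.Agent.Helper6.QD
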