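import Pool.Agent.Helper6.QD.Census
import Pool.Agent.Helper14.SS.Main
import Pool.Agent.Helper58.QD.Stub

/-!
# The diagonal set on the elements of an infinite spectrum
-/

set_option autoImplicit false

namespace Pool.Agent.Helper6.QD

open FirstOrder Pool.Agent.Helper20.Spectra Pool.Agent.Helper12.SS Pool.Agent.Helper14.SS

/-- the property of the predicate `P` which evaluates `S` on coded numbers -/
def Ev {k : ℕ} (S : Set (Fin k → ℕ)) (P : Pd 2 k) (e : ℕ) : Prop :=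
  ∀ (n b : ℕ) (w : Fin 2 → Fin n) (B M : ℕ),
    (w 0 : ℕ) = B → (w 1 : ℕ) = M → 2 ≤ B → e ≤ B → B * B ≤ n → (M + 1) * M ≤ b →
    (M + 1) * M * B ≤ n → ∀ (X : Fin k → Finset (Fin n)) (x : Fin k → ℕ),
      (∀ i, Cd B M 0 (X i) (x i)) → ∀ W, (∀ i, x i ≤ W) → (W + 2) ^ e ≤ B ^ M →
        (P n b w X ↔ x ∈ S)

lemma Ev.mono {k : ℕ} {S : Set (Fin k → ℕ)} {P : Pd 2 k} {e e' : ℕ} (h : Ev S P e)
    (he : e ≤ e') : Ev S P e' := by
  intro n b w B M h0 h1 h2 h3 h4 h5 h6 X x hX W hW hp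
  exact h n b w B M h0 h1 h2 (he.trans h3) h4 h5 h6 X x hX W hW
    ((Nat.pow_le_pow_right (by omega) he).trans hp)

/-- the diagonal predicate -/
def Dq (P : Pd 2 4) (P' : Pd 2 3) (e : ℕ) : Pd 0 0 := fun n b _ _ =>
  ∃ B M k t m0 L a0 a1 U r : Fin n,
    (∀ x : Fin n, ¬ (m0 : ℕ) < (x : ℕ)) ∧
    ((B : ℕ) * B + r = (m0 : ℕ) ∧
    ((((r : ℕ) < 2 * (B : ℕ) + 1) ∧ 2 * (B : ℕ) + 1 < n) ∧
    (4 * ((k : ℕ) + 2) = (L : ℕ) ∧
    ((e + 1) * ((L : ℕ) + 1) = (M : ℕ) ∧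
    (((M : ℕ) + 1) * M = (U : ℕ) ∧
    (((U : ℕ) * B = (U : ℕ) * B ∧ (U : ℕ) * B < n) ∧
    (e + 3 < (B : ℕ) ∧
    ((((a1 : ℕ) * B + a0 = (r : ℕ) + 1) ∧ (r : ℕ) + 1 < n) ∧
    ((a0 : ℕ) < (B : ℕ) ∧
    ((a1 : ℕ) < (B : ℕ) ∧
    ((k : ℕ) < (B : ℕ) ∧
    ((t : ℕ) < (B : ℕ) ∧
    ((∃ X : Finset (Fin n), X.card ≤ b ∧ ∀ a, a < (U : ℕ) → inV X a) ∧
    ((∃ N : Finset (Fin n), N.card ≤ b ∧
      ∃ K : Finset (Fin n), K.card ≤ b ∧ ∃ T : Finset (Fin n), T.card ≤ b ∧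
      (Num (B : ℕ) (M : ℕ) 0 N ∧ (Num (B : ℕ) (M : ℕ) 0 K ∧
      (Num (B : ℕ) (M : ℕ) 0 T ∧
      (Dig3 (B : ℕ) (M : ℕ) N (a0 : ℕ) (a1 : ℕ) 1 ∧
      (Dig3 (B : ℕ) (M : ℕ) K (k : ℕ) 0 0 ∧
      (Dig3 (B : ℕ) (M : ℕ) T (t : ℕ) 0 0 ∧
      P' n b ![B, M] ![N, K, T]))))))) ∧
    ¬ ∃ Y : Finset (Fin n), Y.card ≤ b ∧ ∃ N : Finset (Fin n), N.card ≤ b ∧
      ∃ K : Finset (Fin n), K.card ≤ b ∧ ∃ T : Finset (Fin n), T.card ≤ b ∧
      (Num (B : ℕ) (M : ℕ) 0 Y ∧ (Num (B : ℕ) (M : ℕ) 0 N ∧ (Num (B : ℕ) (M : ℕ) 0 K ∧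
      (Num (B : ℕ) (M : ℕ) 0 T ∧
      ((∀ i, i < (M : ℕ) → (¬ i < (L : ℕ) → inV Y (i * (B : ℕ) + 0))) ∧
      (Dig3 (B : ℕ) (M : ℕ) N (a0 : ℕ) (a1 : ℕ) 1 ∧
      (Dig3 (B : ℕ) (M : ℕ) K (k : ℕ) 0 0 ∧
      (Dig3 (B : ℕ) (M : ℕ) T (t : ℕ) 0 0 ∧
      P n b ![B, M] ![Y, N, K, T]))))))))))))))))))))))

lemma NS_Dq {P : Pd 2 4} {P' : Pd 2 3} (hP : NS 2 4 P) (hP' : NS 2 3 P') (e : ℕ) :
    NS 0 0 (Dq P P' e) := by
  unfold Dq
  refine NS.ex (NS.ex (NS.ex (NS.ex (NS.ex (NS.ex (NS.ex (NS.ex (NS.ex (NS.ex ?_)))))))))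
  -- `r` 0, `U` 1, `a1` 2, `a0` 3, `L` 4, `m0` 5, `t` 6, `k` 7, `M` 8, `B` 9
  refine NS.and (NS.all (NS.lt 6 0).not) ?_
  refine NS.and (NS.val (((IsPoly.var 9).mul (IsPoly.var 9)).add (IsPoly.var 0)) 5) ?_
  refine NS.and (NS.plt (IsPoly.var 0) (((qc 2).mul (IsPoly.var 9)).add (qc 1))) ?_
  refine NS.and (NS.val ((qc 4).mul ((IsPoly.var 7).add (qc 2))) 4) ?_
  refine NS.and (NS.val ((qc (e + 1)).mul ((IsPoly.var 4).add (qc 1))) 8) ?_
  refine NS.and (NS.val (((IsPoly.var 8).add (qc 1)).mul (IsPoly.var 8)) 1) ?_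
  refine NS.and (NS.peq ((IsPoly.var 1).mul (IsPoly.var 9))
    ((IsPoly.var 1).mul (IsPoly.var 9))) ?_
  refine NS.and (NS.ltv (qc (e + 3)) 9) ?_
  refine NS.and (NS.peq (((IsPoly.var 2).mul (IsPoly.var 9)).add (IsPoly.var 3))
    ((IsPoly.var 0).add (qc 1))) ?_
  refine NS.and (NS.lt 3 9) ?_
  refine NS.and (NS.lt 2 9) ?_
  refine NS.and (NS.lt 7 9) ?_
  refine NS.and (NS.lt 6 9) ?_
  refine NS.and (NS.exS (NS.alllt 1 (NS.inV (IsPoly.var 0) 0))) ?_
  refine NS.and ?_ ?_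
  · refine NS.exS (NS.exS (NS.exS ?_))
    -- `T` 0, `K` 1, `N` 2
    refine NS.and (NS.num 9 8 (qc 0) 2) (NS.and
      (NS.num 9 8 (qc 0) 1) (NS.and (NS.num 9 8 (qc 0) 0) ?_))
    refine NS.and (NS.dig3 9 8 (IsPoly.var 3) (IsPoly.var 2) (qc 1) 2) ?_
    refine NS.and (NS.dig3 9 8 (IsPoly.var 7) (qc 0) (qc 0) 1) ?_
    refine NS.and (NS.dig3 9 8 (IsPoly.var 6) (qc 0) (qc 0) 0) ?_
    refine (hP'.sub (k' := 10) (m' := 3) ![9, 8] ![2, 1, 0]).congr (fun n b v V => ?_)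
    have e1 : (v ∘ ![9, 8]) = ![v 9, v 8] := by
      funext i
      fin_cases i <;> rfl
    have e2 : (V ∘ ![2, 1, 0]) = ![V 2, V 1, V 0] := by
      funext i
      fin_cases i <;> rfl
    rw [e1, e2]
    exact Iff.rfl
  · refine NS.not (NS.exS (NS.exS (NS.exS (NS.exS ?_))))
    -- `T` 0, `K` 1, `N` 2, `Y` 3
    refine NS.and (NS.num 9 8 (qc 0) 3) (NS.and (NS.num 9 8 (qc 0) 2) (NS.and
      (NS.num 9 8 (qc 0) 1) (NS.and (NS.num 9 8 (qc 0) 0) ?_)))
    refine NS.and (NS.alllt 8 (NS.imp (NS.lt 0 5).not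
      (NS.inV (((IsPoly.var 0).mul (IsPoly.var 10)).add (qc 0)) 3))) ?_
    refine NS.and (NS.dig3 9 8 (IsPoly.var 3) (IsPoly.var 2) (qc 1) 2) ?_
    refine NS.and (NS.dig3 9 8 (IsPoly.var 7) (qc 0) (qc 0) 1) ?_
    refine NS.and (NS.dig3 9 8 (IsPoly.var 6) (qc 0) (qc 0) 0) ?_
    refine (hP.sub (k' := 10) (m' := 4) ![9, 8] ![3, 2, 1, 0]).congr (fun n b v V => ?_)
    have e1 : (v ∘ ![9, 8]) = ![v 9, v 8] := by
      funext i
      fin_cases i <;> rfl
    have e2 : (V ∘ ![3, 2, 1, 0]) = ![V 3, V 2, V 1, V 0] := by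
      funext i
      fin_cases i <;> rfl
    rw [e1, e2]
    exact Iff.rfl

lemma bounds2 {B k L M n e r : ℕ} (hn : n = B * B + r + 1)
    (hr : r < 2 * B + 1) (hL : 4 * (k + 2) = L) (hM : (e + 1) * (L + 1) = M)
    (hB : 3 < B) : n ^ (k + 1) < B ^ L ∧ n < B ^ L ∧
      (B ^ L - 1 + 2) ^ e ≤ B ^ M ∧ L < M ∧ 3 ≤ M := by
  have h4 : n ≤ B ^ 4 := by
    have h1 : n ≤ (B + 1) ^ 2 := by rw [hn]; nlinarith
    have h2 : B + 1 ≤ B ^ 2 := by nlinarith
    calc n ≤ (B + 1) ^ 2 := h1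
      _ ≤ (B ^ 2) ^ 2 := Nat.pow_le_pow_left h2 2
      _ = B ^ 4 := by ring
  refine ⟨?_, ?_, ?_, ?_, ?_⟩
  · calc n ^ (k + 1) ≤ (B ^ 4) ^ (k + 1) := Nat.pow_le_pow_left h4 _
      _ = B ^ (4 * (k + 1)) := by rw [← pow_mul]
      _ < B ^ L := Nat.pow_lt_pow_right (by omega) (by omega)
  · calc n ≤ B ^ 4 := h4
      _ < B ^ L := Nat.pow_lt_pow_right (by omega) (by omega)
  · have h1 : 1 ≤ B ^ L := Nat.one_le_pow _ _ (by omega)
    have h2 : B ^ L - 1 + 2 ≤ B ^ (L + 1) := by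
      rw [pow_succ]
      have : B ^ L * 2 ≤ B ^ L * B := Nat.mul_le_mul_left _ (by omega)
      omega
    calc (B ^ L - 1 + 2) ^ e ≤ (B ^ (L + 1)) ^ e := Nat.pow_le_pow_left h2 _
      _ = B ^ ((L + 1) * e) := by rw [← pow_mul]
      _ ≤ B ^ M := by
        apply Nat.pow_le_pow_right (by omega)
        rw [← hM]
        nlinarith
  · rw [← hM]; nlinarith
  · rw [← hM]; nlinarith

lemma Dq_iff {S : Set (Fin 4 → ℕ)} {S' : Set (Fin 3 → ℕ)} {P : Pd 2 4} {P' : Pd 2 3} {e : ℕ}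
    (hs : Ev S P e) (hs' : Ev S' P' e) {n b B k t L M r : ℕ}
    (hSn : ∀ y, ![y, n, k, t] ∈ S → y = n ^ (k + 1))
    (hS' : ∀ k' t', ![n, k', t'] ∈ S' ↔ k' = k ∧ t' = t)
    (hn : n = B * B + r + 1) (hr : r < 2 * B + 1)
    (hL : 4 * (k + 2) = L) (hM : (e + 1) * (L + 1) = M) (hU : (M + 1) * M < B)
    (he : e + 3 < B) (hkB : k < B) (htB : t < B)
    (hb : (M + 1) * M ≤ b) (v : Fin 0 → Fin n) (V : Fin 0 → Finset (Fin n)) :
    Dq P P' e n b v V ↔ ¬ (![n ^ (k + 1), n, k, t] : Fin 4 → ℕ) ∈ S := by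
  have hBB : 4 * B ≤ B * B := Nat.mul_le_mul_right _ (by omega)
  obtain ⟨q1, q2, q5, q6, q7⟩ := bounds2 (e := e) hn hr hL hM (by omega)
  have hMM : M ≤ (M + 1) * M := by nlinarith
  have hUB : (M + 1) * M * B < n := by
    have : (M + 1) * M * B ≤ B * B := Nat.mul_le_mul_right _ hU.le
    omega
  have hLM : B ^ L ≤ B ^ M := Nat.pow_le_pow_right (by omega) q6.le
  have ctx : Ctx n b B M := ⟨by omega, by omega, hb, hUB.le⟩
  constructor
  · rintro ⟨B', M', k', t', m0, L', a0, a1, U', r', c1, c2, ⟨c3, c3'⟩, c4, c5, c6, ⟨_, c7⟩, c8,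
      ⟨c9, c9'⟩, c10, c11, c12, c13, ⟨X, hX, hXU⟩, hpos, hneg⟩ hUV
    have hm0 : (m0 : ℕ) = B * B + r := by
      have h1 := c1 ⟨n - 1, by omega⟩
      have h2 := m0.is_lt
      simp only at h1
      omega
    rw [hm0] at c2
    obtain ⟨hB', hr'⟩ := sq_unique c2 c3 hr
    rw [hr'] at c9
    rw [hB'] at c9 c10 c11 c12 c13 c7
    -- the requirement
    have hk't' : (k' : ℕ) = k ∧ (t' : ℕ) = t := by
      obtain ⟨N, _, K, _, T, _, nN, nK, nT, dN, dK, dT, hP'⟩ := hpos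
      rw [hB'] at nN nK nT dN dK dT
      obtain ⟨p1, p2, p5, p6, p7⟩ := bounds2 (e := e) hn hr c4 c5 (by omega)
      have hUb : ((M' : ℕ) + 1) * M' ≤ b := by
        rw [c6]; exact (card_of_initial hXU).trans hX
      obtain ⟨n', n2⟩ := (t_num n B M' 0 N (by omega)).1 nN
      obtain ⟨k'', k2⟩ := (t_num n B M' 0 K (by omega)).1 nK
      obtain ⟨t'', t2⟩ := (t_num n B M' 0 T (by omega)).1 nT
      rw [dig3_iff p7 c10 c11 (by omega) n2] at dN
      rw [dig3_iff p7 c12 (by omega) (by omega) k2] at dK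
      rw [dig3_iff p7 c13 (by omega) (by omega) t2] at dT
      have hn' : n' = n := by
        rw [dN, one_mul]
        omega
      have hk' : k'' = k' := by omega
      have ht' : t'' = t' := by omega
      rw [hn'] at n2
      rw [hk'] at k2
      rw [ht'] at t2
      have hkL : (k' : ℕ) < B ^ (L' : ℕ) := by
        have : B ≤ B ^ (L' : ℕ) := Nat.le_self_pow (by omega) B
        omega
      have htL : (t' : ℕ) < B ^ (L' : ℕ) := by
        have : B ≤ B ^ (L' : ℕ) := Nat.le_self_pow (by omega) B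
        omega
      have h3 := (hs' n b ![B', M'] B M' hB' rfl (by omega) (by omega)
        (by omega) hUb (by rw [c6]; exact c7.le) ![N, K, T] ![n, k', t'] (by
          intro i
          fin_cases i
          · exact n2
          · exact k2
          · exact t2) (B ^ (L' : ℕ) - 1) (by
          intro i
          fin_cases i
          · show n ≤ _
            omega
          · show (k' : ℕ) ≤ _
            omega
          · show (t' : ℕ) ≤ _
            omega) p5).1 hP'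
      exact (hS' _ _).1 h3
    obtain ⟨hk', ht'⟩ := hk't'
    rw [hk', hL] at c4
    rw [← c4, hM] at c5
    rw [← c4, ← c5, hB', hk', ht'] at hneg
    apply hneg
    obtain ⟨Y, y1, y2⟩ := ex_code t_exCd ctx (x := n ^ (k + 1)) (by omega)
    obtain ⟨N, n1, n2⟩ := ex_code t_exCd ctx (x := n) (by omega)
    obtain ⟨K, k1, k2⟩ := ex_code t_exCd ctx (x := k) (by omega)
    obtain ⟨T, t1, t2⟩ := ex_code t_exCd ctx (x := t) (by omega)
    refine ⟨Y, y1, N, n1, K, k1, T, t1, (t_num n B M 0 Y (by omega)).2 ⟨_, y2⟩,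
      (t_num n B M 0 N (by omega)).2 ⟨_, n2⟩, (t_num n B M 0 K (by omega)).2 ⟨_, k2⟩,
      (t_num n B M 0 T (by omega)).2 ⟨_, t2⟩, ?_, ?_, ?_, ?_, ?_⟩
    · intro i hi hiL
      have h1 := (y2.2 i hi 0 (by omega)).2 (dg_eq_zero q1 (by omega) (by omega))
      rw [zero_add] at h1
      exact h1
    · rw [dig3_iff q7 c10 c11 (by omega) n2, one_mul]
      omega
    · rw [dig3_iff q7 hkB (by omega) (by omega) k2]
      omega
    · rw [dig3_iff q7 htB (by omega) (by omega) t2]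
      omega
    · refine (hs n b ![B', M'] B M hB' c5.symm (by omega) (by omega) (by omega) hb hUB.le
        ![Y, N, K, T] ![n ^ (k + 1), n, k, t] ?_ (B ^ L - 1) ?_ q5).2 hUV
      · intro i
        fin_cases i
        · exact y2
        · exact n2
        · exact k2
        · exact t2
      · intro i
        fin_cases i
        · show n ^ (k + 1) ≤ _
          omega
        · show n ≤ _
          omega
        · show k ≤ _
          omega
        · show t ≤ _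
          omega
  · intro hUV
    have ha := Nat.div_add_mod (r + 1) B
    have ha0 : (r + 1) % B < B := Nat.mod_lt _ (by omega)
    have ha1 : (r + 1) / B < B := by
      rw [Nat.div_lt_iff_lt_mul (by omega)]
      omega
    have hL4 : L < B := by omega
    refine ⟨⟨B, by omega⟩, ⟨M, by omega⟩, ⟨k, by omega⟩, ⟨t, by omega⟩, ⟨n - 1, by omega⟩,
      ⟨L, by omega⟩, ⟨(r + 1) % B, by omega⟩, ⟨(r + 1) / B, by omega⟩,
      ⟨(M + 1) * M, by omega⟩, ⟨r, by omega⟩, ?_, ?_, ⟨?_, ?_⟩, hL, hM, rfl, ⟨rfl, hUB⟩, he,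
      ⟨?_, ?_⟩, ha0, ha1, hkB, htB, ?_, ?_, ?_⟩
    · intro x
      have := x.is_lt
      show ¬ (n - 1 < (x : ℕ))
      omega
    · show B * B + r = n - 1
      omega
    · exact hr
    · show 2 * B + 1 < n
      omega
    · show (r + 1) / B * B + (r + 1) % B = r + 1
      rw [mul_comm]
      exact ha
    · show r + 1 < n
      omega
    · obtain ⟨X, h1, h2⟩ := ex_initial (n := n) (U := (M + 1) * M) (by omega)
      exact ⟨X, h1.trans hb, h2⟩
    · obtain ⟨N, n1, n2⟩ := ex_code t_exCd ctx (x := n) (by omega)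
      obtain ⟨K, k1, k2⟩ := ex_code t_exCd ctx (x := k) (by omega)
      obtain ⟨T, t1, t2⟩ := ex_code t_exCd ctx (x := t) (by omega)
      refine ⟨N, n1, K, k1, T, t1,
        (t_num n B M 0 N (by omega)).2 ⟨_, n2⟩, (t_num n B M 0 K (by omega)).2 ⟨_, k2⟩,
        (t_num n B M 0 T (by omega)).2 ⟨_, t2⟩, ?_, ?_, ?_, ?_⟩
      · show Dig3 B M N ((r + 1) % B) ((r + 1) / B) 1
        rw [dig3_iff q7 ha0 ha1 (by omega) n2, one_mul, mul_comm ((r + 1) / B) B]
        omega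
      · show Dig3 B M K k 0 0
        rw [dig3_iff q7 hkB (by omega) (by omega) k2]
        omega
      · show Dig3 B M T t 0 0
        rw [dig3_iff q7 htB (by omega) (by omega) t2]
        omega
      · refine (hs' n b ![⟨B, by omega⟩, ⟨M, by omega⟩] B M rfl rfl (by omega) (by omega)
          (by omega) hb hUB.le ![N, K, T] ![n, k, t] ?_ (B ^ L - 1) ?_ q5).2
          ((hS' _ _).2 ⟨rfl, rfl⟩)
        · intro i
          fin_cases i
          · exact n2
          · exact k2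
          · exact t2
        · intro i
          fin_cases i
          · show n ≤ _
            omega
          · show k ≤ _
            omega
          · show t ≤ _
            omega
    · rintro ⟨Y, _, N, _, K, _, T, _, nY, nN, nK, nT, hYz, dN, dK, dT, hP⟩
      simp only at nY nN nK nT hYz dN dK dT hP
      obtain ⟨y, y2⟩ := (t_num n B M 0 Y (by omega)).1 nY
      obtain ⟨n', n2⟩ := (t_num n B M 0 N (by omega)).1 nN
      obtain ⟨k', k2⟩ := (t_num n B M 0 K (by omega)).1 nK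
      obtain ⟨t', t2⟩ := (t_num n B M 0 T (by omega)).1 nT
      rw [dig3_iff q7 ha0 ha1 (by omega) n2] at dN
      rw [dig3_iff q7 hkB (by omega) (by omega) k2] at dK
      rw [dig3_iff q7 htB (by omega) (by omega) t2] at dT
      have hy : y < B ^ L := by
        refine lt_of_top_zero (by omega) y2.1 q6.le (fun l hl hLl => ?_)
        have h1 := hYz l hl (by omega)
        have h2 := (y2.2 l hl 0 (by omega)).1 (by rw [zero_add]; exact h1)
        exact h2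
      have hn' : n' = n := by
        rw [dN, hn]
        nlinarith
      have hk' : k' = k := by omega
      have ht' : t' = t := by omega
      rw [hn'] at n2
      rw [hk'] at k2
      rw [ht'] at t2
      have h3 := (hs n b ![⟨B, by omega⟩, ⟨M, by omega⟩] B M rfl rfl (by omega) (by omega)
        (by omega) hb hUB.le ![Y, N, K, T] ![y, n, k, t] (by
          intro i
          fin_cases i
          · exact y2
          · exact n2
          · exact k2
          · exact t2) (B ^ L - 1) (by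
          intro i
          fin_cases i
          · show y ≤ _
            omega
          · show n ≤ _
            omega
          · show k ≤ _
            omega
          · show t ≤ _
            omega) q5).1 hP
      apply hUV
      have h4 : y = n ^ (k + 1) := hSn y h3
      rw [← h4]
      exact h3

end Pool.Agent.Helper6.QD
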