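import Pool.Agent.Helper6.QD.DiagR

/-!
# The fallback of block H
-/

set_option autoImplicit false

namespace Pool.Agent.Helper6.QD

open FirstOrder Pool.Agent.Helper20.Spectra Pool.Agent.Helper12.SS Pool.Agent.Helper14.SS
  Pool.Agent.Helper58.QD

lemma le_sr {b n : ℕ} (h : b ^ 5 ≤ n) : b ≤ sr n := by
  unfold sr
  rcases Nat.eq_zero_or_pos b with h0 | h0
  · omega
  · exact Nat.le_findGreatest ((Nat.le_self_pow (by norm_num) b).trans h) h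

theorem stmtDiagR : StmtDiagR := by
  intro T hT hTi hQ
  have hTR : IsRudimentary T := hQ T hT
  obtain ⟨e1, P, hP, hPs⟩ := trans_all 4 UV (rud_UV hQ)
  obtain ⟨e2, P', hP', hPs'⟩ := trans_all 3 _ (rud_req hQ hTR)
  obtain ⟨e, he⟩ : ∃ e, e = max e1 e2 := ⟨_, rfl⟩
  have hE : Ev UV P e := Ev.mono hPs (by omega)
  have hE' : Ev {v : Fin 3 → ℕ | Req T (v 0) (v 1) (v 2)} P' e := Ev.mono hPs' (by omega)
  obtain ⟨φ, hφ⟩ := NS_Dq hP hP' e
  refine ⟨φ, fun hD => ?_⟩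
  have hD0 : 0 ∉ T ∩ arithS sr φ := fun h => by have := h.2.1; omega
  obtain ⟨k, Θ, hΘ⟩ := spectrum_blocks (hD.isSpectrum hD0)
  obtain ⟨t, rfl⟩ := exists_blk Θ
  obtain ⟨L, hL⟩ : ∃ L, 4 * (k + 2) = L := ⟨_, rfl⟩
  obtain ⟨M, hM⟩ : ∃ M, (e + 1) * (L + 1) = M := ⟨_, rfl⟩
  obtain ⟨W, hW⟩ : ∃ W, W = (M + 1) * M + ((k + t) ^ 2 + k) + k + t + e + 4 := ⟨_, rfl⟩
  obtain ⟨B', hB'⟩ : ∃ B', B' = W ^ 5 + (W + 1) * (W + 1) := ⟨_, rfl⟩
  obtain ⟨n, hnT, hn⟩ := exists_cen hTi (B' * B' + ((k + t) ^ 2 + k))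
  have hnle := cen_le T n
  have hB'1 : 1 ≤ B' := by
    have : 0 < (W + 1) * (W + 1) := by positivity
    omega
  have hB'n : B' ≤ n := by
    have : B' * 1 ≤ B' * B' := Nat.mul_le_mul_left _ hB'1
    omega
  have hn1 : 1 ≤ n := by omega
  -- the base
  obtain ⟨B, hB⟩ : ∃ B, B = Nat.sqrt (n - 1) := ⟨_, rfl⟩
  have hs1 : B * B ≤ n - 1 := by rw [hB]; exact Nat.sqrt_le _
  have hs2 : n - 1 < (B + 1) * (B + 1) := by rw [hB]; exact Nat.lt_succ_sqrt _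
  obtain ⟨r, hr⟩ : ∃ r, r = n - 1 - B * B := ⟨_, rfl⟩
  have hnr : n = B * B + r + 1 := by omega
  have hr2 : r < 2 * B + 1 := by
    have : (B + 1) * (B + 1) = B * B + 2 * B + 1 := by ring
    omega
  have hWB : W < B := by
    by_contra hcon
    have h1 : (B + 1) * (B + 1) ≤ (W + 1) * (W + 1) := Nat.mul_le_mul (by omega) (by omega)
    have h2 : 1 ≤ W ^ 5 := Nat.one_le_pow _ _ (by omega)
    omega
  have hb : (M + 1) * M ≤ sr n := by
    apply le_sr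
    calc ((M + 1) * M) ^ 5 ≤ W ^ 5 := Nat.pow_le_pow_left (by omega) 5
      _ ≤ B' := by rw [hB']; omega
      _ ≤ n := hB'n
  have hreq : ∀ k' t', ![n, k', t'] ∈ {v : Fin 3 → ℕ | Req T (v 0) (v 1) (v 2)} ↔
      k' = k ∧ t' = t := by
    intro k' t'
    show Req T n k' t' ↔ _
    unfold Req
    have hWB' : (k + t) ^ 2 + k < 2 * B' + 1 := by
      have : W ≤ W ^ 5 := Nat.le_self_pow (by norm_num) W
      omega
    constructor
    · rintro ⟨B1, _, h1, h2⟩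
      rw [hn] at h1
      obtain ⟨_, h3⟩ := sq_unique h1.symm h2 hWB'
      exact pr2_inj (x := k') (y := t') (x' := k) (y' := t) h3
    · rintro ⟨rfl, rfl⟩
      exact ⟨B', hB'n, hn, hWB'⟩
  have h1 := Dq_iff (S := UV) hE hE' (n := n) (b := sr n) (fun y hy => hy.1) hreq hnr hr2 hL hM
    (by omega) (by omega) (by omega) (by omega) hb Fin.elim0 Fin.elim0
  have h2 := hΘ n (by omega)
  have h3 : n ∈ T ∩ arithS sr φ ↔ ¬ (![n ^ (k + 1), n, k, t] : Fin 4 → ℕ) ∈ UV := by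
    rw [← h1, ← hφ]
    exact ⟨fun h => h.2.2, fun h => ⟨hnT, by omega, h⟩⟩
  have h4 : (![n ^ (k + 1), n, k, t] : Fin 4 → ℕ) ∈ UV ↔ n ^ (k + 1) ∈ squareSizes (blk t) := by
    rw [← mem_univSizes]
    exact ⟨fun h => h.2, fun h => ⟨rfl, h⟩⟩
  rw [h3, h4] at h2
  tauto

end Pool.Agent.Helper6.QD
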